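import Mathlib
import Pool.Agent.H597Z.MlatDefs
import Pool.Agent.H597Z.Mlat

set_option autoImplicit false

namespace Pool.Agent.Results.MP_626926_al.AMonoids

open Pool.Agent.H597Z.Mlat

/-- The lattice with a least element, a greatest element and an antichain of size continuum
embeds into the lattice of local monoids on a countably infinite discrete set: there is an
injective map which sends meets to greatest lower bounds and joins to least upper bounds in the
set of local monoids ordered by inclusion. -/
theorem result (X : Type) [Countable X] [Infinite X] [TopologicalSpace X] [DiscreteTopology X]
    (L : Type) [Lattice L] [BoundedOrder L] (hL : IsMContinuum L) :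
    ∃ f : L → {M : Set (X → X) // IsLocalMonoid M}, Function.Injective f ∧
      ∀ a b : L, IsGLB {f a, f b} (f (a ⊓ b)) ∧ IsLUB {f a, f b} (f (a ⊔ b)) :=
  monoids X L hL

end Pool.Agent.Results.MP_626926_al.AMonoids
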